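import Mathlib
import Pool.Agent.TH344.BF.Main

/-!
# The tails of the distribution of the ranks in the families given by split binary forms

Let `n ≥ 2` be even, let `l k i` (`k = 0, 1, 2`, `i = 1, ..., n`) be pairwise non-proportional linear
forms in `u, v` with integer coefficients, let `m k i` be odd, and let
`F_k = a_k ∏_i (l k i) ^ (m k i)` be binary forms with `F_0 - F_1 = F_2`. The curves
`E : y² = x (x - F_0 (u, v)) (x - F_1 (u, v))` are the fibres at `t = u / v` of an elliptic surface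
with full `2`-torsion over `ℚ(t)`. There is a set of pairs `(u, v)` of density zero such that over
all the other coprime pairs all the moments of the orders of the 2-Selmer groups are bounded. So the
upper density of the pairs for which the rank is at least `r` decays faster than any exponential
`A ^ (-r)`.

For example, if `p, q, r` are linear forms such that `p ± q`, `q ± r`, `r ± p` are pairwise
non-proportional, the curve `y² = (x + p²) (x + q²) (x + r²)` with the point `(0, p q r)` is of this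
type after the substitution `x ↦ x - p²` (`n = 2`, `F_0 = p² - q²`, `F_1 = p² - r²`,
`F_2 = r² - q²`, all `m = 1`).
-/

namespace Pool.Agent.Results.MP_788af2_nt.BinaryFormTails

open Filter Topology

/-- the curve `y² = x (x - A) (x - B)` -/
def E (A B : ℤ) : WeierstrassCurve ℚ := ⟨0, -((A : ℚ) + B), 0, (A : ℚ) * B, 0⟩

/-- the value at `(u, v)` of the binary form `F_k = a_k ∏_i (l k i) ^ (m k i)`, where
`l (k, i) = (α, β)` stands for the linear form `α u + β v` -/
def F {n : ℕ} (l : Fin 3 × Fin n → ℤ × ℤ) (m : Fin 3 × Fin n → ℕ) (a : Fin 3 → ℤ) (k : Fin 3)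
    (u v : ℤ) : ℤ :=
  a k * ∏ i : Fin n, ((l (k, i)).1 * u + (l (k, i)).2 * v) ^ m (k, i)

/-- the coprime pairs `(u, v)` with `|u|, |v| ≤ N` and `F_k (u, v) ≠ 0` -/
def Pairs {n : ℕ} (l : Fin 3 × Fin n → ℤ × ℤ) (m : Fin 3 × Fin n → ℕ) (a : Fin 3 → ℤ) (N : ℕ) :
    Set (ℤ × ℤ) :=
  {t | |t.1| ≤ N ∧ |t.2| ≤ N ∧ IsCoprime t.1 t.2 ∧ ∀ k, F l m a k t.1 t.2 ≠ 0}

/-- the curve for the pair `(u, v)` -/
def W {n : ℕ} (l : Fin 3 × Fin n → ℤ × ℤ) (m : Fin 3 × Fin n → ℕ) (a : Fin 3 → ℤ) (t : ℤ × ℤ) :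
    WeierstrassCurve ℚ := E (F l m a 0 t.1 t.2) (F l m a 1 t.1 t.2)

/-- the Mordell-Weil rank -/
noncomputable def rank (W : WeierstrassCurve ℚ) : ℕ := Module.finrank ℤ W.toAffine.Point

/-- The local condition at a completion `K` of `ℚ`: there is a point `(x, y)`, `y ≠ 0`, of
`y² = x (x - A) (x - B)` over `K` such that `x d₁` and `(x - A) d₂` are squares. (Every class of
`E(K) / 2 E(K)` contains a point with `y ≠ 0`.) -/
def Local (K : Type) [Field K] (A B d1 d2 : ℤ) : Prop :=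
  ∃ x y : K, y ≠ 0 ∧ y ^ 2 = x * (x - A) * (x - B) ∧ IsSquare (x * d1) ∧ IsSquare ((x - A) * d2)

/-- The 2-Selmer group of `y² = x (x - A) (x - B)`. An element of the group is a pair of classes in
`ℚ^* / ℚ^*²`, given by squarefree integers `d₁`, `d₂`, which over `ℝ` and over `ℚ_[p]` for all
primes `p` are the classes of `x` and `x - A` for a point of the curve. -/
def Sel2 (A B : ℤ) : Set (ℤ × ℤ) :=
  {d | Squarefree d.1 ∧ Squarefree d.2 ∧ Local ℝ A B d.1 d.2 ∧
    ∀ (p : ℕ) [Fact p.Prime], Local ℚ_[p] A B d.1 d.2}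

/-- the proportion of `S` among the elements of `P N` -/
noncomputable def proportion (P : ℕ → Set (ℤ × ℤ)) (S : Set (ℤ × ℤ)) (N : ℕ) : ℝ :=
  ((P N ∩ S).ncard : ℝ) / (P N).ncard

/-- the upper density -/
noncomputable def upperDensity (P : ℕ → Set (ℤ × ℤ)) (S : Set (ℤ × ℤ)) : ℝ :=
  limsup (proportion P S) atTop

/-- **Theorem.** Let `n ≥ 2` be even, `l` pairwise non-proportional linear forms, `m` odd exponents,
and `F_0 - F_1 = F_2`. The number of the coprime pairs `(u, v)` with `|u|, |v| ≤ N` and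
`F_k (u, v) ≠ 0` tends to infinity with `N`. For all these pairs the 2-Selmer group of the curve is
finite, of order at least `2 ^ rank`. There is a set `Z` of density zero such that for every `k` the
sum of the `k`-th powers of the orders of the 2-Selmer groups over the pairs of size at most `N`
outside of `Z` is at most `C_k` times the number of the pairs of size at most `N`. For every real
number `A`, the upper density of the pairs for which the rank is at least `r`, times `A ^ r`, tends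
to zero for `r → ∞`; the same holds for the pairs for which the 2-Selmer group has at least `2 ^ r`
elements. -/
theorem result (n : ℕ) (hn0 : 0 < n) (hn : Even n) (l : Fin 3 × Fin n → ℤ × ℤ)
    (m : Fin 3 × Fin n → ℕ) (hm : ∀ j, Odd (m j)) (a : Fin 3 → ℤ) (ha : ∀ k, a k ≠ 0)
    (hl : ∀ i j, i ≠ j → (l i).1 * (l j).2 ≠ (l j).1 * (l i).2)
    (hF : ∀ u v : ℤ, F l m a 0 u v - F l m a 1 u v = F l m a 2 u v) :
    (∀ N, (Pairs l m a N).Finite ∧ ∀ t ∈ Pairs l m a N,
      (Sel2 (F l m a 0 t.1 t.2) (F l m a 1 t.1 t.2)).Finite ∧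
      2 ^ rank (W l m a t) ≤ (Sel2 (F l m a 0 t.1 t.2) (F l m a 1 t.1 t.2)).ncard) ∧
    Tendsto (fun N => (Pairs l m a N).ncard) atTop atTop ∧
    (∃ Z : Set (ℤ × ℤ), Tendsto (proportion (Pairs l m a) Z) atTop (𝓝 0) ∧
      ∀ k : ℕ, ∃ C : ℝ, ∀ N : ℕ, ∑ᶠ t ∈ Pairs l m a N \ Z,
        ((Sel2 (F l m a 0 t.1 t.2) (F l m a 1 t.1 t.2)).ncard : ℝ) ^ k ≤
          C * (Pairs l m a N).ncard) ∧
    ∀ A : ℝ,
      Tendsto (fun r : ℕ => A ^ r * upperDensity (Pairs l m a) {t | r ≤ rank (W l m a t)})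
        atTop (𝓝 0) ∧
      Tendsto (fun r : ℕ => A ^ r * upperDensity (Pairs l m a)
        {t | 2 ^ r ≤ (Sel2 (F l m a 0 t.1 t.2) (F l m a 1 t.1 t.2)).ncard}) atTop (𝓝 0) := by
  classical
  set D : Pool.Agent.TH344.BF.Fam n := ⟨l, m, a, hn0, hn, hm, ha, hl, hF⟩ with hD
  have hP : ∀ N, Pairs l m a N = (Pool.Agent.TH344.BF.Fb D N : Set (ℤ × ℤ)) := by
    intro N
    ext t
    unfold Pairs Pool.Agent.TH344.BF.Fb
    rw [Finset.mem_coe, Finset.mem_filter, Pool.Agent.W307.RT.mem_Box, Set.mem_ofPred_eq,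
      Int.abs_eq_natAbs, Int.abs_eq_natAbs, Nat.cast_le, Nat.cast_le, and_assoc]
    exact Iff.rfl
  have hfin : ∀ N, ∀ t ∈ Pool.Agent.TH344.BF.Fb D N,
      (Sel2 (F l m a 0 t.1 t.2) (F l m a 1 t.1 t.2)).Finite ∧
      2 ^ rank (W l m a t) ≤ (Sel2 (F l m a 0 t.1 t.2) (F l m a 1 t.1 t.2)).ncard := by
    intro N t ht
    unfold Pool.Agent.TH344.BF.Fb at ht
    rw [Finset.mem_filter] at ht
    have h0 : ∀ k, F l m a k t.1 t.2 ≠ 0 := ht.2.2
    have hne : F l m a 0 t.1 t.2 ≠ F l m a 1 t.1 t.2 := by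
      intro h
      apply h0 2
      rw [← hF, h, sub_self]
    have h1 := Pool.Agent.W701.FK.sel_fin' (h0 0) (h0 1) hne
    obtain ⟨h2, h3⟩ := Pool.Agent.TH344.SG.sha_sel _ _ (h0 0) (h0 1) hne _ rfl h1
    refine ⟨h1, le_trans (Nat.le_mul_of_pos_right _ ?_) h3⟩
    rw [Nat.card_pos_iff]
    exact ⟨⟨⟨0, by simp⟩⟩, h2⟩
  have hprop : ∀ S, proportion (Pairs l m a) S =
      Pool.Agent.TH344.GT.pr (Pool.Agent.TH344.BF.Fb D) S := by
    intro S
    funext N
    unfold proportion Pool.Agent.TH344.GT.pr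
    rw [hP, Set.ncard_coe_finset]
  have hud : ∀ S, upperDensity (Pairs l m a) S =
      Pool.Agent.TH344.GT.ud (Pool.Agent.TH344.BF.Fb D) S := by
    intro S
    unfold upperDensity Pool.Agent.TH344.GT.ud
    rw [hprop]
  have hexc := Pool.Agent.TH344.BF.excb D
  obtain ⟨Z, hZ1, hZ2⟩ := hexc
  refine ⟨fun N => ?_, ?_, ⟨Z, ?_, fun k => ?_⟩, fun A => ⟨?_, ?_⟩⟩
  · rw [hP]
    exact ⟨Finset.finite_toSet _, fun t ht => hfin N t (Finset.mem_coe.1 ht)⟩
  · simp only [hP, Set.ncard_coe_finset]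
    obtain ⟨X0, hX0⟩ := Pool.Agent.TH344.GT.cop_box (fun j => (l j).1) (fun j => (l j).2)
      (Pool.Agent.TH344.BF.not_both D)
    rw [tendsto_atTop]
    intro b
    filter_upwards [eventually_ge_atTop (max X0 (8 * b + 8))] with N hN
    have h1 := hX0 N (le_trans (le_max_left _ _) hN)
    have h2 : 8 * b + 8 ≤ N := le_trans (le_max_right _ _) hN
    have h3 : (Pool.Agent.TH344.BF.Fb D N) = (Pool.Agent.W307.RT.Box N).filter
        (fun t => IsCoprime t.1 t.2 ∧ ∀ j, (l j).1 * t.1 + (l j).2 * t.2 ≠ 0) := by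
      unfold Pool.Agent.TH344.BF.Fb
      apply Finset.filter_congr
      intro t _
      rw [Pool.Agent.TH344.BF.bf_ne]
    rw [← h3] at h1
    have h4 : (8 * (b : ℝ) + 8) ≤ N := by exact_mod_cast h2
    have h5 : (b : ℝ) ≤ (Pool.Agent.TH344.BF.Fb D N).card := by
      have : (0 : ℝ) ≤ b := Nat.cast_nonneg _
      nlinarith
    exact_mod_cast h5
  · rw [hprop]
    exact Pool.Agent.TH344.GT.tendsto_of_eps _ hZ1
  · obtain ⟨C, hC⟩ := hZ2 k
    refine ⟨C, fun N => ?_⟩
    have h1 : Pairs l m a N \ Z =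
        (((Pool.Agent.TH344.BF.Fb D N).filter (fun t => t ∉ Z) : Finset (ℤ × ℤ)) :
          Set (ℤ × ℤ)) := by
      rw [hP]
      ext t
      simp
    rw [h1, finsum_mem_coe_finset, hP, Set.ncard_coe_finset]
    exact hC N
  · simp only [hud]
    apply Pool.Agent.TH344.GT.tail _ (Pool.Agent.TH344.BF.excb D) 1
    intro r N t ht hr
    rw [pow_one]
    exact (Nat.pow_le_pow_right (by norm_num) hr).trans (hfin N t ht).2
  · simp only [hud]
    apply Pool.Agent.TH344.GT.tail _ (Pool.Agent.TH344.BF.excb D) 1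
    intro r N t ht hr
    rw [pow_one]
    exact hr

end Pool.Agent.Results.MP_788af2_nt.BinaryFormTails
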