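import Mathlib
import Pool.Agent.TH779.BS.PenC

/-!
# Clusters of primes and one-parameter families of elliptic curves of bounded rank

`W_t : y² = x (x - D(t) u₀(t)) (x - D(t) u₁(t))`, where `u₀`, `u₁` and `u₂ = u₀ - u₁` are
polynomials with integer coefficients, `u_k` being a constant times a product of `n_k` irreducible
polynomials, these `n₀ + n₁ + n₂` irreducible polynomials being pairwise different, and `D` is any
nonzero polynomial not divisible by one of them. Let `s_k` be the number of the irreducible factors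
of `u_k` at which the elliptic curve over `ℚ(t)` has split multiplicative reduction. Assume that
`2 n_k + s_k ≤ n₀ + n₁ + n₂` for `k = 0, 1, 2` and that `D(t) u_k(t) ≠ 0` for all integers `t`.

For every `m` there is `K` such that, for every admissible set `H` of at least `K` shifts, for
finitely many such families and every `b`, the following holds with a constant `R`: for at least
`c x / (log x) ^ K` integers `n` of `(x, 2 x]` at least `m` of the numbers `n + h`, `h ∈ H`, are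
primes and, for ALL integers `t` with `|t - n| ≤ b`, all the curves `W_t` of the families have
rank and 2-primary Tate-Shafarevich group bounded by `R`.
-/

set_option autoImplicit false

namespace Pool.Agent.Results.MP_788af2_nt.ClusteredPencils

open Finset Polynomial

open Pool.Agent.TH841.SH.D (Sha ShaTor HasDiv rk)

/-- the curve `y² = x (x - A) (x - B)` over `ℚ` -/
def E (A B : ℤ) : WeierstrassCurve ℚ := ⟨0, -((A : ℚ) + B), 0, (A : ℚ) * B, 0⟩

/-- `u_k = a_k ∏ f_{k,i}` -/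
noncomputable def u {n : Fin 3 → ℕ} (a : Fin 3 → ℤ) (f : ∀ k : Fin 3, Fin (n k) → ℤ[X])
    (k : Fin 3) : ℤ[X] := C (a k) * ∏ i, f k i

/-- `v` is a square modulo `f`, over the rationals -/
def SqMod (f v : ℤ[X]) : Prop := ∃ q : ℚ[X], f.map (Int.castRingHom ℚ) ∣
  (q ^ 2 - v.map (Int.castRingHom ℚ))

/-- modulo a factor `f` of `u_k`, the curve `y² = x (x - D u₀) (x - D u₁)` has a node whose tangent
directions are the square roots of `v_k`; so the reduction at `f` is split if and only if `v_k` is a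
square modulo `f` -/
noncomputable def v {n : Fin 3 → ℕ} (D : ℤ[X]) (a : Fin 3 → ℤ)
    (f : ∀ k : Fin 3, Fin (n k) → ℤ[X]) : Fin 3 → ℤ[X] :=
  ![-(D * u a f 1), -(D * u a f 0), D * u a f 0]

open Classical in
/-- the number of the factors of `u_k` with split multiplicative reduction -/
noncomputable def s {n : Fin 3 → ℕ} (D : ℤ[X]) (a : Fin 3 → ℤ)
    (f : ∀ k : Fin 3, Fin (n k) → ℤ[X]) (k : Fin 3) : ℕ :=
  (univ.filter (fun i => SqMod (f k i) (v D a f k))).card

/-- the family `y² = x (x - D u₀) (x - D u₁)` is admitted -/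
structure IsPencil {n : Fin 3 → ℕ} (a : Fin 3 → ℤ) (f : ∀ k : Fin 3, Fin (n k) → ℤ[X])
    (D : ℤ[X]) : Prop where
  ne_zero : ∀ k, a k ≠ 0
  irreducible : ∀ k i, Irreducible (f k i) ∧ 0 < (f k i).natDegree
  distinct : ∀ k i l j, (⟨k, i⟩ : Σ k : Fin 3, Fin (n k)) ≠ ⟨l, j⟩ → ¬ Associated (f k i) (f l j)
  rel : u a f 0 - u a f 1 = u a f 2
  D_ne_zero : D ≠ 0
  not_dvd : ∀ k i, ¬ f k i ∣ D
  balanced : ∀ k, 2 * n k + s D a f k ≤ n 0 + n 1 + n 2
  smooth : ∀ (t : ℤ) (k : Fin 3), (D * u a f k).eval t ≠ 0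

/-- the fibre at `t` -/
noncomputable def fib {n : Fin 3 → ℕ} (a : Fin 3 → ℤ) (f : ∀ k : Fin 3, Fin (n k) → ℤ[X])
    (D : ℤ[X]) (t : ℤ) : WeierstrassCurve ℚ :=
  E ((D * u a f 0).eval t) ((D * u a f 1).eval t)

/-- `H` is admissible: for every prime `p` there is an integer `b` such that `p` divides none of
the numbers `b + h`, `h ∈ H` -/
def Admissible (H : Finset ℕ) : Prop := ∀ p : ℕ, p.Prime → ∃ b : ℕ, ∀ h ∈ H, ¬ p ∣ b + h

/-- all `Ш[2 ^ k]` are finite, `2 ^ rank * #Ш[2 ^ k] ^ (1 / k) ≤ R` for all `k ≥ 1`, and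
`2 ^ (rank + q) ≤ R` if `Ш` has a subgroup `(ℚ₂ / ℤ₂) ^ q` -/
def Bounded (R : ℝ) (W : WeierstrassCurve ℚ) : Prop :=
  (∀ k : ℕ, Finite (ShaTor W (2 ^ k))) ∧
  (∀ k : ℕ, 1 ≤ k →
    (2 : ℝ) ^ rk W * (Nat.card (ShaTor W (2 ^ k)) : ℝ) ^ ((1 : ℝ) / k) ≤ R) ∧
  ∀ q : ℕ, HasDiv W q → (2 : ℝ) ^ (rk W + q) ≤ R

open Classical in
/-- **Theorem.** For every `m` there is `K` such that for every admissible set `H` of at least `K`
nonnegative integers there is `c > 0` such that for all admitted families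
`W^i_t : y² = x (x - D_i(t) u_{i,0}(t)) (x - D_i(t) u_{i,1}(t))` (`i < g`) and every `b` there are
`R` and `x₀` such that for all `x ≥ x₀` at least `c x / (log x) ^ K` integers `n` with
`x < n ≤ 2 x` have the following property: at least `m` of the numbers `n + h`, `h ∈ H`, are
primes, and for all integers `t` with `|t - n| ≤ b` and all `i` the elliptic curve `W^i_t` is
bounded by `R`. -/
theorem result (m : ℕ) : ∃ K : ℕ, ∀ H : Finset ℕ, K ≤ H.card → Admissible H →
    ∃ c : ℝ, 0 < c ∧ ∀ (g : ℕ) (n : Fin g → Fin 3 → ℕ) (a : Fin g → Fin 3 → ℤ)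
      (f : ∀ i : Fin g, ∀ k : Fin 3, Fin (n i k) → ℤ[X]) (D : Fin g → ℤ[X]),
      (∀ i, IsPencil (a i) (f i) (D i)) → ∀ b : ℕ,
      ∃ R : ℝ, ∃ x₀ : ℕ, ∀ x : ℕ, x₀ ≤ x →
        c * (x / (Real.log x) ^ K) ≤ (((Ioc x (2 * x)).filter (fun n : ℕ =>
          m ≤ (H.filter (fun h => (n + h).Prime)).card ∧
          ∀ t : ℤ, |t - n| ≤ b → ∀ i, Bounded R (fib (a i) (f i) (D i) t))).card : ℝ) := by
  obtain ⟨K, hK⟩ := Pool.Agent.TH779.BS.clustersP m
  refine ⟨K, fun H hH hadm => ?_⟩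
  obtain ⟨c, hc, h⟩ := hK H hH hadm
  refine ⟨c, hc, fun g n a f D hP b => ?_⟩
  have hP' : ∀ i, Pool.Agent.TH779.BS.IsPen (a i) (f i) (D i) := fun i =>
    ⟨(hP i).ne_zero, ⟨fun x => ((hP i).irreducible x.1 x.2).1,
      fun x => ((hP i).irreducible x.1 x.2).2, fun x y hxy => (hP i).distinct x.1 x.2 y.1 y.2 hxy⟩,
      (hP i).rel, (hP i).D_ne_zero, (hP i).not_dvd,
      Pool.Agent.TH841.TR.bal_of (v := v (D i) (a i) (f i)) rfl rfl rfl (hP i).balanced,
      (hP i).smooth⟩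
  obtain ⟨R, x₀, hR⟩ := h hP' b
  refine ⟨R, x₀, fun x hx => (hR x hx).trans ?_⟩
  have hsub : (Ioc x (2 * x)).filter (fun n : ℕ =>
      m ≤ (H.filter (fun h => (n + h).Prime)).card ∧
      ∀ t : ℤ, |t - n| ≤ b → ∀ i, Pool.Agent.W307.SE.SN
        ((D i * Pool.Agent.TH841.TR.UP (a i) (f i) 0).eval t)
        ((D i * Pool.Agent.TH841.TR.UP (a i) (f i) 1).eval t) ≤ R) ⊆
      (Ioc x (2 * x)).filter (fun n : ℕ =>
      m ≤ (H.filter (fun h => (n + h).Prime)).card ∧
      ∀ t : ℤ, |t - n| ≤ b → ∀ i, Bounded R (fib (a i) (f i) (D i) t)) := by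
    intro n hn
    rw [mem_filter] at hn ⊢
    refine ⟨hn.1, hn.2.1, fun t ht i => ?_⟩
    have h2 := (hP' i).bd (hn.2.2 t ht i)
    exact ⟨fun k => h2.fin k, fun _ hk => h2.wt_le hk, fun _ hq => h2.div_le le_rfl hq⟩
  exact_mod_cast card_le_card hsub

end Pool.Agent.Results.MP_788af2_nt.ClusteredPencils
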