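import Mathlib
import Pool.Agent.TH779.BS.Mx

/-!
# Local averages of the ranks in one-parameter families of elliptic curves

`W_t : y² = x (x - D(t) u₀(t)) (x - D(t) u₁(t))`, where `u₀`, `u₁` and `u₂ = u₀ - u₁` are
polynomials with integer coefficients, `u_k` being a constant times a product of `n_k` irreducible
polynomials, these `n₀ + n₁ + n₂` irreducible polynomials being pairwise different, and `D` is any
nonzero polynomial not divisible by one of them. Let `s_k` be the number of the irreducible factors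
of `u_k` at which the elliptic curve over `ℚ(t)` has split multiplicative reduction. Assume that
`2 n_k + s_k ≤ n₀ + n₁ + n₂` for `k = 0, 1, 2` and that `D(t) u_k(t) ≠ 0` for all integers `t`.

Then in every interval of length `Y ≥ N ^ θ` at `N` the maximal function of
`t ↦ 2 ^ rank W_t * #Ш(W_t)[2 ^ k] ^ (1 / k)` is of weak type `(1, 1)`: for every `M > 0`, for at
most `(C / M) Y` of the integers `m` of the interval there is a window `(u, v]` of ANY length
around `m` over which this function has an average larger than `M` for some `k ≥ 1`.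
-/

set_option autoImplicit false

namespace Pool.Agent.Results.MP_788af2_nt.LocalAverages

open Finset Polynomial Filter

open Pool.Agent.TH841.SH.D (Sha ShaTor HasDiv rk)

/-- the curve `y² = x (x - A) (x - B)` over `ℚ` -/
def E (A B : ℤ) : WeierstrassCurve ℚ := ⟨0, -((A : ℚ) + B), 0, (A : ℚ) * B, 0⟩

/-- `u_k = a_k ∏ f_{k,i}` -/
noncomputable def u {n : Fin 3 → ℕ} (a : Fin 3 → ℤ) (f : ∀ k : Fin 3, Fin (n k) → ℤ[X])
    (k : Fin 3) : ℤ[X] := C (a k) * ∏ i, f k i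

/-- `v` is a square modulo `f`, over the rationals -/
def SqMod (f v : ℤ[X]) : Prop := ∃ q : ℚ[X], f.map (Int.castRingHom ℚ) ∣
  (q ^ 2 - v.map (Int.castRingHom ℚ))

/-- modulo a factor `f` of `u_k`, the curve `y² = x (x - D u₀) (x - D u₁)` has a node whose tangent
directions are the square roots of `v_k`; so the reduction at `f` is split if and only if `v_k` is a
square modulo `f` -/
noncomputable def v {n : Fin 3 → ℕ} (D : ℤ[X]) (a : Fin 3 → ℤ)
    (f : ∀ k : Fin 3, Fin (n k) → ℤ[X]) : Fin 3 → ℤ[X] :=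
  ![-(D * u a f 1), -(D * u a f 0), D * u a f 0]

open Classical in
/-- the number of the factors of `u_k` with split multiplicative reduction -/
noncomputable def s {n : Fin 3 → ℕ} (D : ℤ[X]) (a : Fin 3 → ℤ)
    (f : ∀ k : Fin 3, Fin (n k) → ℤ[X]) (k : Fin 3) : ℕ :=
  (univ.filter (fun i => SqMod (f k i) (v D a f k))).card

/-- the family `y² = x (x - D u₀) (x - D u₁)` is admitted -/
structure IsPencil {n : Fin 3 → ℕ} (a : Fin 3 → ℤ) (f : ∀ k : Fin 3, Fin (n k) → ℤ[X])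
    (D : ℤ[X]) : Prop where
  ne_zero : ∀ k, a k ≠ 0
  irreducible : ∀ k i, Irreducible (f k i) ∧ 0 < (f k i).natDegree
  distinct : ∀ k i l j, (⟨k, i⟩ : Σ k : Fin 3, Fin (n k)) ≠ ⟨l, j⟩ → ¬ Associated (f k i) (f l j)
  rel : u a f 0 - u a f 1 = u a f 2
  D_ne_zero : D ≠ 0
  not_dvd : ∀ k i, ¬ f k i ∣ D
  balanced : ∀ k, 2 * n k + s D a f k ≤ n 0 + n 1 + n 2
  smooth : ∀ (t : ℤ) (k : Fin 3), (D * u a f k).eval t ≠ 0

/-- the fibre at `t` -/
noncomputable def fib {n : Fin 3 → ℕ} (a : Fin 3 → ℤ) (f : ∀ k : Fin 3, Fin (n k) → ℤ[X])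
    (D : ℤ[X]) (t : ℤ) : WeierstrassCurve ℚ :=
  E ((D * u a f 0).eval t) ((D * u a f 1).eval t)

open Classical in
/-- **Theorem.** For every admitted family `W_t : y² = x (x - D(t) u₀(t)) (x - D(t) u₁(t))` and
every `θ > 0` there is `C` such that for all large `N` and all `Y` with `N ^ θ ≤ Y ≤ N`:
all `Ш(W_t)[2 ^ k]`, `t ∈ (N, N + Y]`, are finite, and for every `M > 0` at most `(C / M) Y` of the
integers `m` of `(N, N + Y]` lie in a window `(u, v] ⊆ (N, N + Y]` such that for some `k ≥ 1` the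
sum of `2 ^ rank W_t * #Ш(W_t)[2 ^ k] ^ (1 / k)` over the `t` of the window is larger than
`M (v - u)`. -/
theorem result {n : Fin 3 → ℕ} (a : Fin 3 → ℤ) (f : ∀ k : Fin 3, Fin (n k) → ℤ[X]) (D : ℤ[X])
    (hP : IsPencil a f D) (θ : ℝ) (hθ : 0 < θ) :
    ∃ C : ℝ, ∀ᶠ N : ℕ in atTop, ∀ Y : ℕ, (N : ℝ) ^ θ ≤ Y → Y ≤ N →
      (∀ t ∈ Ioc N (N + Y), ∀ k : ℕ, Finite (ShaTor (fib a f D t) (2 ^ k))) ∧
      ∀ M : ℝ, 0 < M →
        (((Ioc N (N + Y)).filter (fun m => ∃ u v k : ℕ, N ≤ u ∧ u < m ∧ m ≤ v ∧ v ≤ N + Y ∧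
          1 ≤ k ∧ M * ((v : ℝ) - u) < ∑ t ∈ Ioc u v, (2 : ℝ) ^ rk (fib a f D t) *
            (Nat.card (ShaTor (fib a f D t) (2 ^ k)) : ℝ) ^ ((1 : ℝ) / k))).card : ℝ) ≤
        C / M * Y := by
  have hP' : Pool.Agent.TH779.BS.IsPen a f D :=
    ⟨hP.ne_zero, ⟨fun x => (hP.irreducible x.1 x.2).1,
      fun x => (hP.irreducible x.1 x.2).2, fun x y hxy => hP.distinct x.1 x.2 y.1 y.2 hxy⟩,
      hP.rel, hP.D_ne_zero, hP.not_dvd,
      Pool.Agent.TH841.TR.bal_of (v := v D a f) rfl rfl rfl hP.balanced, hP.smooth⟩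
  obtain ⟨C, _, hC⟩ := Pool.Agent.TH779.BS.maxP hP' θ hθ
  refine ⟨C, ?_⟩
  filter_upwards [hC] with N hN
  intro Y hNY hYN
  refine ⟨fun t _ k => (hP'.bd (t := (t : ℤ)) le_rfl).fin k, fun M hM => ?_⟩
  have h1 := hN Y hNY hYN M hM
  rw [div_mul_eq_mul_div, le_div_iff₀ hM]
  rw [mul_comm] at h1
  refine le_trans (mul_le_mul_of_nonneg_right (Nat.cast_le.2 (card_le_card ?_)) hM.le) h1
  intro m hm
  rw [mem_filter] at hm ⊢
  obtain ⟨hmI, u', v', k, h2, h3, h4, h5, hk, h6⟩ := hm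
  refine ⟨hmI, u', v', h2, h3, h4, h5, lt_of_lt_of_le h6 (sum_le_sum fun t _ => ?_)⟩
  exact (hP'.bd (t := (t : ℤ)) le_rfl).wt_le hk

end Pool.Agent.Results.MP_788af2_nt.LocalAverages
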