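import Mathlib
import Pool.Agent.TH342.ShortSq
import Pool.Agent.TH779.BS.Sq2

/-!
# Local averages of the ranks of all elliptic curves with full rational 2-torsion

The elliptic curves `y² = x (x - D a) (x - D b)` over `ℚ` are arranged in the plane lattice by
`(a, b)`. For every square `(N₁, N₁ + X] × (N₂, N₂ + X]` at distance at most `X ^ L` from the origin
and every `M > 0`, for all but at most `(C / M) 128 ^ ω(D) X²` of the pairs `(a, b)` of this square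
the averages of the squares of the orders of the 2-Selmer groups (so also the averages of
`4 ^ rank`) over ALL the squares inside it which contain `(a, b)`, of ANY side, are at most `M`. The
constant `C` depends only on `L`.
-/

set_option autoImplicit false

namespace Pool.Agent.Results.MP_788af2_nt.LocalAveragesInSquares

open Finset

/-- the curve `y² = x (x - A) (x - B)` over `ℚ` -/
def E (A B : ℤ) : WeierstrassCurve ℚ := ⟨0, -((A : ℚ) + B), 0, (A : ℚ) * B, 0⟩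

/-- The local condition at a completion `K` of `ℚ`: there is a point `(x, y)`, `y ≠ 0`, of
`y² = x (x - A) (x - B)` over `K` such that `x * d.1` and `(x - A) * d.2` are squares. (Every class
of `E(K) / 2 E(K)` contains a point with `y ≠ 0`.) -/
def Local (K : Type) [Field K] (A B : ℤ) (d : ℤ × ℤ) : Prop :=
  ∃ x y : K, y ≠ 0 ∧ y ^ 2 = x * (x - A) * (x - B) ∧ IsSquare (x * d.1) ∧ IsSquare ((x - A) * d.2)

/-- The 2-Selmer group of `y² = x (x - A) (x - B)`. The map `(x, y) ↦ (x, x - A)` identifies the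
classes of homogeneous spaces with the pairs of classes of nonzero rational numbers modulo squares,
given by squarefree integers `d.1`, `d.2`; the elements of the 2-Selmer group are the pairs which
over `ℝ` and over `ℚ_[p]` for all primes `p` come from points of the curve. -/
def Sel2 (A B : ℤ) : Set (ℤ × ℤ) :=
  {d | Squarefree d.1 ∧ Squarefree d.2 ∧ Local ℝ A B d ∧
    ∀ (p : ℕ) [Fact p.Prime], Local ℚ_[p] A B d}

/-- The pairs `(a, b)` with `N₁ < a ≤ N₁ + X` and `N₂ < b ≤ N₂ + X` for which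
`y² = x (x - a) (x - b)` is an elliptic curve. -/
noncomputable def Sq (N₁ N₂ : ℤ) (X : ℕ) : Finset (ℤ × ℤ) :=
  (Ioc N₁ (N₁ + X) ×ˢ Ioc N₂ (N₂ + X)).filter (fun t => t.1 ≠ 0 ∧ t.2 ≠ 0 ∧ t.1 ≠ t.2)

open Classical in
/-- **Theorem.** If `A`, `B` are different nonzero integers, the 2-Selmer group of
`y² = x (x - A) (x - B)` is finite, of order at least `2 ^ rank`. For every `L` there is a constant
`C` such that for all integers `D ≠ 0`, `X ≥ 1`, `|N₁|, |N₂| ≤ X ^ L` and all `M > 0` at most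
`(C / M) 128 ^ ω(D) X ^ 2` pairs `(a, b)` of the square `(N₁, N₁ + X] × (N₂, N₂ + X]` lie in a
square `(c₁, c₁ + h] × (c₂, c₂ + h]` inside it over which the sum of the squares of the orders of
the 2-Selmer groups of the curves `y² = x (x - D a) (x - D b)` is larger than `M h ^ 2`. -/
theorem result :
    (∀ A B : ℤ, A ≠ 0 → B ≠ 0 → A ≠ B → (Sel2 A B).Finite ∧
      2 ^ Module.finrank ℤ (E A B).toAffine.Point ≤ (Sel2 A B).ncard) ∧
    ∀ L : ℕ, ∃ C : ℝ, ∀ (D N₁ N₂ : ℤ) (X : ℕ), D ≠ 0 → 1 ≤ X → |N₁| ≤ (X : ℤ) ^ L →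
      |N₂| ≤ (X : ℤ) ^ L → ∀ M : ℝ, 0 < M →
      (((Sq N₁ N₂ X).filter (fun t => ∃ (c₁ c₂ : ℤ) (h : ℕ), N₁ ≤ c₁ ∧ c₁ + h ≤ N₁ + X ∧
        N₂ ≤ c₂ ∧ c₂ + h ≤ N₂ + X ∧ t ∈ Sq c₁ c₂ h ∧
        M * (h : ℝ) ^ 2 < ∑ q ∈ Sq c₁ c₂ h, ((Sel2 (D * q.1) (D * q.2)).ncard : ℝ) ^ 2)).card :
          ℝ) ≤
        C / M * 128 ^ D.natAbs.primeFactors.card * (X : ℝ) ^ 2 := by
  refine ⟨fun A B hA hB hAB => Pool.Agent.TH342.SQ.rank_le hA hB hAB, fun L => ?_⟩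
  obtain ⟨C, hC, h⟩ := Pool.Agent.TH342.SQ.all_pairs L
  refine ⟨25 * C, fun D N₁ N₂ X hD hX hN₁ hN₂ M hM => ?_⟩
  have hN : ∀ N : ℤ, |N| ≤ (X : ℤ) ^ L → N.natAbs ≤ X ^ L := by
    intro N hN
    have : ((N.natAbs : ℕ) : ℤ) ≤ ((X ^ L : ℕ) : ℤ) := by
      rw [Int.natCast_natAbs]
      push_cast
      exact hN
    exact_mod_cast this
  have h1 := h D N₁ N₂ X hD hX (hN N₁ hN₁) (hN N₂ hN₂)
  have h2 : ∀ (c₁ c₂ : ℤ) (k : ℕ),
      ∑ t ∈ Sq c₁ c₂ k, ((Sel2 (D * t.1) (D * t.2)).ncard : ℝ) ^ 2 =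
        ∑ t ∈ Pool.Agent.TH779.SQ.Bo (c₁, c₂, k), Pool.Agent.TH342.SQ.GD D t := by
    intro c₁ c₂ k
    unfold Sq Pool.Agent.TH779.SQ.Bo
    rw [sum_filter]
    exact sum_congr rfl fun t _ => rfl
  have h3 := Pool.Agent.TH779.SQ.max_sq (Pool.Agent.TH342.SQ.GD D)
    (Pool.Agent.TH342.SQ.GD_nonneg D) N₁ N₂ X M hM
  have h4 : ∑ t ∈ Pool.Agent.TH779.SQ.Bo (N₁, N₂, X), Pool.Agent.TH342.SQ.GD D t ≤
      C * 128 ^ D.natAbs.primeFactors.card * (X : ℝ) ^ 2 := h1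
  rw [div_mul_eq_mul_div, div_mul_eq_mul_div, le_div_iff₀ hM, mul_comm]
  have h5 : (Sq N₁ N₂ X).filter (fun t => ∃ (c₁ c₂ : ℤ) (h : ℕ), N₁ ≤ c₁ ∧ c₁ + h ≤ N₁ + X ∧
        N₂ ≤ c₂ ∧ c₂ + h ≤ N₂ + X ∧ t ∈ Sq c₁ c₂ h ∧
        M * (h : ℝ) ^ 2 < ∑ q ∈ Sq c₁ c₂ h, ((Sel2 (D * q.1) (D * q.2)).ncard : ℝ) ^ 2) ⊆
      (Pool.Agent.TH779.SQ.Bo (N₁, N₂, X)).filter (fun p => ∃ c : ℤ × ℤ × ℕ, N₁ ≤ c.1 ∧
        c.1 + c.2.2 ≤ N₁ + X ∧ N₂ ≤ c.2.1 ∧ c.2.1 + c.2.2 ≤ N₂ + X ∧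
        p ∈ Pool.Agent.TH779.SQ.Bo c ∧ M * (c.2.2 : ℝ) ^ 2 <
          ∑ q ∈ Pool.Agent.TH779.SQ.Bo c, Pool.Agent.TH342.SQ.GD D q) := by
    intro t ht
    rw [mem_filter] at ht ⊢
    obtain ⟨htS, c₁, c₂, k, e1, e2, e3, e4, e5, e6⟩ := ht
    refine ⟨(mem_filter.1 htS).1, (c₁, c₂, k), e1, e2, e3, e4, (mem_filter.1 e5).1, ?_⟩
    rw [← h2]
    exact e6
  have h6 := (Nat.cast_le (α := ℝ)).2 (card_le_card h5)
  calc M * _ ≤ M * _ := mul_le_mul_of_nonneg_left h6 hM.le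
    _ ≤ _ := h3
    _ ≤ 25 * (C * 128 ^ D.natAbs.primeFactors.card * (X : ℝ) ^ 2) :=
        mul_le_mul_of_nonneg_left h4 (by norm_num)
    _ = _ := by ring

end Pool.Agent.Results.MP_788af2_nt.LocalAveragesInSquares
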